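import Pool.Agent.TH30.SS.Prod
import Pool.Agent.W522.C.Fam

/-!
# Semisimplicity for all primes from products of Frobenius eigenvalues
-/

set_option autoImplicit false

namespace Pool.Agent.TH30.SS

open Polynomial Module Pool.Agent.W522.C

variable {K : Type*} [Field K] {G : Type*} [Group G]

/-- the determinant of `f` on the subspace `W`, which is stable under `f` -/
noncomputable def detOn {V : Type*} [AddCommGroup V] [Module K V] (f : V →ₗ[K] V)
    (W : Submodule K V) (h : ∀ x ∈ W, f x ∈ W) : K :=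
  LinearMap.det (f.restrict h)

/-- the determinant of the action of `g` on the stable subspace `W` -/
noncomputable def subDet (R : Rp K G) (W : Submodule K R.V) (hW : R.Stable W) (g : G) : K :=
  detOn (R.ρ g) W (hW g)

/-- The determinant of every stable subspace is, up to roots of unity of bounded order, an integral
power of the character `ε`. -/
def DetsArePowers (R : Rp K G) (ε : G →* Kˣ) : Prop :=
  ∀ W hW, ∃ (a : ℤ) (M : ℕ), 0 < M ∧ ∀ g, subDet R W hW g ^ M = (ε g : K) ^ (a * M)

/-- `g` acts with the characteristic polynomial `P ∈ ℤ[T]`, `ε g = q` is an integer `≥ 2`, and all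
complex roots of `P` have absolute value `q ^ (w / 2)`. -/
structure PureAt (R : Rp K G) (ε : G →* Kˣ) (w : ℕ) (g : G) (P : ℤ[X]) (q : ℕ) : Prop where
  two_le : 2 ≤ q
  poly : R.HasPoly g P
  eps : (ε g : K) = q
  abs : ∀ z : ℂ, aeval z P = 0 → ‖z‖ ^ 2 = (q : ℝ) ^ w

theorem main [CharZero K] (R : PairedRep K G) (ε : G →* Kˣ) (w : ℕ)
    (hmult : ∀ g, R.mult g = (ε g : K) ^ w) (hdet : DetsArePowers R.toRp ε)
    (h : ∀ r, 0 < r → 2 * r ≤ finrank K R.V → ∃ g P q, PureAt R.toRp ε w g P q ∧
      (Even (w * r) → ¬ HasRootOfUnityProduct P q w r)) :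
    R.Semisimple := by
  classical
  intro W hW
  have hstab : ∀ g, ∀ x ∈ W, ∃ y ∈ W, R.ρ g y = x := by
    intro g x hx
    refine ⟨R.ρ g⁻¹ x, hW _ _ hx, ?_⟩
    rw [← Module.End.mul_apply, ← map_mul, mul_inv_cancel, map_one, Module.End.one_apply]
  have hms : ∀ g x y, R.form (R.ρ g x) (R.ρ g y) = R.mult g * R.form x y :=
    fun g x y => R.mult_spec g x y
  have horth : ∀ g, ∀ x ∈ R.form.orthogonal W, R.ρ g x ∈ R.form.orthogonal W := by
    intro g x hx y hy
    obtain ⟨z, hz, rfl⟩ := hstab g y hy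
    change R.form (R.ρ g z) (R.ρ g x) = 0
    rw [hms]
    have h1 : R.form z x = 0 := hx z hz
    rw [h1, mul_zero]
  refine ⟨horth, ?_⟩
  have hbot : W ⊓ R.form.orthogonal W = ⊥ := by
    by_contra hne
    set N := W ⊓ R.form.orthogonal W with hN
    have hr : 0 < finrank K N := by
      rw [Nat.pos_iff_ne_zero]
      intro h0
      exact hne (Submodule.finrank_eq_zero.1 h0)
    have hNs : R.Stable N := fun g x hx => ⟨hW _ _ hx.1, horth _ _ hx.2⟩
    have hiso : ∀ x ∈ N, ∀ y ∈ N, R.form x y = 0 := fun x hx y hy => hy.2 x hx.1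
    have hr2 : 2 * finrank K N ≤ finrank K R.V := by
      have h1 : N ≤ R.form.orthogonal N := fun y hy x hx => hiso x hx y hy
      have hker : R.form.orthogonal ⊤ = ⊥ := by
        rw [eq_bot_iff]
        intro x hx
        rw [Submodule.mem_bot]
        exact R.nondeg x fun y => R.refl y x (hx y trivial)
      have h2 := LinearMap.BilinForm.finrank_add_finrank_orthogonal R.refl N
      have h3 := Submodule.finrank_mono h1
      rw [hker, inf_bot_eq, finrank_bot] at h2
      omega
    obtain ⟨g, P, q, hp, hno⟩ := h _ hr hr2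
    obtain ⟨a, M, hM, ha⟩ := hdet N hNs
    have hq0 : 0 < q := lt_of_lt_of_le (by norm_num) hp.two_le
    obtain ⟨S, hS1, hS2, hS3, hS4⟩ := exists_product R.form R.nondeg (R.ρ g) (w := w) hq0 hp.poly
      hp.abs (fun x y => by rw [hms, hmult, hp.eps]) N (fun x hx => hNs g x hx) hiso a M (by
        rw [← hp.eps]
        exact ha g)
    -- absolute values
    have hqR : (1 : ℝ) < q := by exact_mod_cast lt_of_lt_of_le (by norm_num) hp.two_le
    have h1 : ‖S.prod‖ ^ (2 * M) = (q : ℝ) ^ (2 * a * M) := by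
      rw [pow_mul', ← norm_pow, hS3, norm_zpow, Complex.norm_natCast, ← zpow_natCast, ← zpow_mul]
      congr 1
      push_cast
      ring
    have h2 : ‖S.prod‖ ^ (2 * M) = (q : ℝ) ^ ((w * finrank K N * M : ℕ) : ℤ) := by
      rw [pow_mul, hS4, zpow_natCast, ← pow_mul]
    have h3 : (2 * a * M : ℤ) = ((w * finrank K N * M : ℕ) : ℤ) :=
      zpow_right_injective₀ (by positivity) hqR.ne' (h1.symm.trans h2)
    have h4 : 2 * a = ((w * finrank K N : ℕ) : ℤ) := by
      push_cast at h3 ⊢
      have hM' : (M : ℤ) ≠ 0 := by exact_mod_cast hM.ne'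
      exact mul_right_cancel₀ hM' h3
    have h5 : Even (w * finrank K N) := by
      rw [← Int.even_coe_nat, ← h4]
      exact even_two_mul a
    refine hno h5 ⟨S, hS1, hS2, M, hM, ?_⟩
    rw [pow_mul', hS3, ← zpow_natCast, ← zpow_mul, ← zpow_natCast]
    congr 1
    rw [Nat.cast_mul, ← h4]
    push_cast
    ring
  exact (LinearMap.BilinForm.isCompl_orthogonal_iff_disjoint R.refl).2 (disjoint_iff.2 hbot)

end Pool.Agent.TH30.SS
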