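import Mathlib
import Pool.Agent.W522.C.C4

/-!
# The eigenvalues on a stable isotropic subspace
-/

set_option autoImplicit false

namespace Pool.Agent.TH30.SS

open Polynomial Module Pool.Agent.W522.C

/-- Among the complex roots of `P` (with multiplicities) there are `r` roots, the multiset `S`,
together with the dual roots `q ^ w / z`, `z` in `S`, whose product is `q ^ (w r / 2)` times a root of
unity. -/
def HasRootOfUnityProduct (P : ℤ[X]) (q w r : ℕ) : Prop :=
  ∃ S : Multiset ℂ, Multiset.card S = r ∧
    S + S.map (fun z => (q : ℂ) ^ w / z) ≤ (P.map (Int.castRingHom ℂ)).roots ∧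
    ∃ M : ℕ, 0 < M ∧ S.prod ^ (2 * M) = (q : ℂ) ^ (w * r * M)

section

variable {K V : Type*} [Field K] [Infinite K] [AddCommGroup V] [Module K V]
  [FiniteDimensional K V]

/-- The roots of the dual factor. -/
theorem roots_dual {E : Type*} [Field E] [Algebra K E] (F f : K[X]) (hF : F.Monic)
    (hsplit : (F.map (algebraMap K E)).Splits) {c d : K} (hd : d ≠ 0)
    (hd' : algebraMap K E d = (F.map (algebraMap K E)).roots.prod)
    (hev : ∀ t : K, t ≠ 0 → f.eval t * d = (-t) ^ F.natDegree * F.eval (c / t)) :
    f.map (algebraMap K E) =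
      (((F.map (algebraMap K E)).roots.map fun a => algebraMap K E c / a).map
        fun a => X - C a).prod := by
  set j := algebraMap K E with hj
  set F' := F.map j with hF'
  have hF'm : F'.Monic := hF.map j
  have hprod : F' = (F'.roots.map fun a => X - C a).prod := hsplit.eq_prod_roots_of_monic hF'm
  have hcard : Multiset.card F'.roots = F.natDegree := by
    rw [← hsplit.natDegree_eq_card_roots, hF', Polynomial.natDegree_map]
  have h1 : f.map j * C (j d) = (F'.roots.map fun a => C a * X - C (j c)).prod := by
    apply Polynomial.eq_of_infinite_eval_eq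
    have hinf : (Set.range fun t : {t : K // t ≠ 0} => j t.1).Infinite := by
      have : Infinite {t : K // t ≠ 0} := by
        have h2 : ({0}ᶜ : Set K).Infinite := (Set.finite_singleton (0 : K)).infinite_compl
        exact h2.to_subtype
      exact Set.infinite_range_of_injective (j.injective.comp Subtype.val_injective)
    refine hinf.mono ?_
    rintro _ ⟨⟨t, ht⟩, rfl⟩
    change eval (j t) _ = eval (j t) _
    have hjt : j t ≠ 0 := (map_ne_zero j).2 ht
    rw [eval_mul, eval_C, eval_map, eval₂_hom, ← map_mul, hev t ht, map_mul, map_pow, map_neg,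
      ← eval₂_hom j (c / t), ← eval_map]
    change (-j t) ^ F.natDegree * eval (j (c / t)) F' = _
    rw [hprod, eval_multiset_prod, eval_multiset_prod, Multiset.map_map, Multiset.map_map, ← hcard,
      ← hprod]
    rw [← Multiset.prod_replicate, ← Multiset.map_const', ← Multiset.prod_map_mul]
    congr 1
    apply Multiset.map_congr rfl
    intro a _
    simp only [Function.comp_apply, eval_sub, eval_X, eval_C, eval_mul, map_div₀]
    field_simp
    ring
  have hjd : j d ≠ 0 := (map_ne_zero j).2 hd
  have hne : ∀ a ∈ F'.roots, a ≠ 0 := by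
    rintro a ha rfl
    apply hjd
    rw [hd']
    exact Multiset.prod_eq_zero ha
  have h2 : (F'.roots.map fun a => C a * X - C (j c)).prod =
      C F'.roots.prod * ((F'.roots.map fun a => j c / a).map fun a => X - C a).prod := by
    have h3 : (C F'.roots.prod : E[X]) = (F'.roots.map fun a => C a).prod := by
      rw [map_multiset_prod]
    rw [h3, Multiset.map_map, ← Multiset.prod_map_mul]
    congr 1
    apply Multiset.map_congr rfl
    intro a ha
    rw [Function.comp_apply, mul_sub, ← C_mul, mul_div_cancel₀ _ (hne a ha)]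
  rw [h2, ← hd', mul_comm] at h1
  exact mul_left_cancel₀ (C_ne_zero.2 hjd) h1

end

/-- An algebraically closed field that embeds in the given one and in `ℂ`. -/
theorem common_field (E : Type*) [Field E] [CharZero E] [IsAlgClosed E] :
    ∃ (L : Type) (_ : Field L), IsAlgClosed L ∧ Nonempty (L →+* E) ∧ Nonempty (L →+* ℂ) :=
  haveI : Algebra.IsAlgebraic ℚ (AlgebraicClosure ℚ) := by
    have h := AlgebraicClosure.isAlgebraic ℚ
    convert h
    · rfl
    · exact Subsingleton.elim _ _
  ⟨AlgebraicClosure ℚ, inferInstance, inferInstance,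
    ⟨(IsAlgClosed.lift : AlgebraicClosure ℚ →ₐ[ℚ] E).toRingHom⟩,
    ⟨(IsAlgClosed.lift : AlgebraicClosure ℚ →ₐ[ℚ] ℂ).toRingHom⟩⟩

variable {K V : Type*} [Field K] [CharZero K] [AddCommGroup V] [Module K V]
  [FiniteDimensional K V]

/-- The main step. -/
theorem exists_product (b : V →ₗ[K] V →ₗ[K] K) (hb : ∀ x, (∀ y, b x y = 0) → x = 0)
    (g : Module.End K V) {P : ℤ[X]} {q w : ℕ} (hq : 0 < q)
    (hP : g.charpoly = P.map (Int.castRingHom K))
    (habs : ∀ z : ℂ, aeval z P = 0 → ‖z‖ ^ 2 = (q : ℝ) ^ w)
    (hg : ∀ x y, b (g x) (g y) = (q : K) ^ w * b x y)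
    (R : Submodule K V) (hR : R ≤ R.comap g) (hiso : ∀ x ∈ R, ∀ y ∈ R, b x y = 0)
    (a : ℤ) (M : ℕ)
    (hdet : LinearMap.det (g.restrict hR) ^ M = (q : K) ^ (a * M)) :
    ∃ S : Multiset ℂ, Multiset.card S = finrank K R ∧
      S + S.map (fun z => (q : ℂ) ^ w / z) ≤ (P.map (Int.castRingHom ℂ)).roots ∧
      S.prod ^ M = (q : ℂ) ^ (a * M) ∧ ‖S.prod‖ ^ 2 = (q : ℝ) ^ (w * finrank K R) := by
  classical
  have hqK : (q : K) ^ w ≠ 0 := pow_ne_zero _ (by exact_mod_cast hq.ne')
  obtain ⟨f, h1, h2, h3⟩ := charpoly_dvd b hb g hqK hg R hR hiso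
  set F := (g.restrict hR).charpoly with hF
  have hFm : F.Monic := LinearMap.charpoly_monic _
  have hdeg : F.natDegree = finrank K R := LinearMap.charpoly_natDegree _
  let E := AlgebraicClosure K
  set j := algebraMap K E with hj
  have hsplit : (F.map j).Splits := IsAlgClosed.splits _
  have hPm : P.Monic := by
    have h4 : (P.map (Int.castRingHom K)).Monic := by
      rw [← hP]
      exact LinearMap.charpoly_monic _
    exact Polynomial.monic_of_injective (RingHom.injective_int _) h4
  -- the determinant
  have hd' : j (LinearMap.det (g.restrict hR)) = (F.map j).roots.prod := by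
    have h4 : LinearMap.det (g.restrict hR) = (-1) ^ finrank K R * F.coeff 0 := by
      rw [hF]
      exact LinearMap.det_eq_sign_charpoly_coeff _
    have h5 : (F.map j).coeff 0 = (-1) ^ (F.map j).natDegree * (F.map j).roots.prod := by
      rw [hsplit.coeff_zero_eq_leadingCoeff_mul_prod_roots, (hFm.map j).leadingCoeff, mul_one]
    rw [h4, map_mul, map_pow, map_neg, map_one, ← coeff_map, h5, Polynomial.natDegree_map, hdeg,
      ← mul_assoc, ← mul_pow, neg_one_mul, neg_neg, one_pow, one_mul]
  set A := (F.map j).roots with hA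
  have hAcard : Multiset.card A = finrank K R := by
    rw [hA, ← hsplit.natDegree_eq_card_roots, Polynomial.natDegree_map, hdeg]
  have hfm := roots_dual (E := E) F f hFm hsplit h2 hd' (by
    intro t ht
    rw [hdeg]
    exact h3 t ht)
  have hFprod : F.map j = (A.map fun a => X - C a).prod := hsplit.eq_prod_roots_of_monic (hFm.map j)
  have hjq : j ((q : K) ^ w) = (q : E) ^ w := by rw [map_pow, map_natCast]
  rw [hjq] at hfm
  -- the roots of `P` over `E`
  have hle : A + A.map (fun z => (q : E) ^ w / z) ≤ (P.map (Int.castRingHom E)).roots := by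
    have h4 : F.map j * f.map j ∣ P.map (Int.castRingHom E) := by
      have h5 := Polynomial.map_dvd j h1
      rw [Polynomial.map_mul, hP, Polynomial.map_map] at h5
      have h6 : j.comp (Int.castRingHom K) = Int.castRingHom E := RingHom.ext_int _ _
      rwa [h6] at h5
    have h5 : P.map (Int.castRingHom E) ≠ 0 := (hPm.map _).ne_zero
    have h6 := Polynomial.roots.le_of_dvd h5 h4
    have h7 : F.map j * f.map j =
        ((A + A.map (fun z => (q : E) ^ w / z)).map fun a => X - C a).prod := by
      rw [Multiset.map_add, Multiset.prod_add, ← hfm, ← hFprod]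
    rw [h7, Polynomial.roots_multiset_prod_X_sub_C] at h6
    exact h6
  -- transfer to the complex numbers
  obtain ⟨L, hLf, hLa, ⟨i1⟩, ⟨i2⟩⟩ := common_field E
  have hPL : (P.map (Int.castRingHom L)).Splits := IsAlgClosed.splits _
  have hr1 : (P.map (Int.castRingHom E)).roots = (P.map (Int.castRingHom L)).roots.map i1 := by
    rw [← hPL.roots_map i1, Polynomial.map_map]
    congr 2
    exact (RingHom.ext_int _ _)
  have hr2 : (P.map (Int.castRingHom ℂ)).roots = (P.map (Int.castRingHom L)).roots.map i2 := by
    rw [← hPL.roots_map i2, Polynomial.map_map]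
    congr 2
    exact (RingHom.ext_int _ _)
  rw [hr1] at hle
  have hmem : ∀ x ∈ A, ∃ y, i1 y = x := by
    intro x hx
    have h4 := Multiset.mem_of_le hle (Multiset.mem_add.2 (Or.inl hx))
    obtain ⟨y, -, hy⟩ := Multiset.mem_map.1 h4
    exact ⟨y, hy⟩
  obtain ⟨A', hA'map, hA'card⟩ : ∃ A' : Multiset L, A'.map i1 = A ∧
      Multiset.card A' = finrank K R := by
    refine ⟨A.map (Function.invFun i1), ?_, by rw [Multiset.card_map, hAcard]⟩
    rw [Multiset.map_map]
    conv_rhs => rw [← Multiset.map_id A]
    exact Multiset.map_congr rfl fun x hx => Function.invFun_eq (hmem x hx)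
  have hle' : A' + A'.map (fun z => (q : L) ^ w / z) ≤ (P.map (Int.castRingHom L)).roots := by
    rw [← Multiset.map_le_map_iff i1.injective]
    refine le_trans (le_of_eq ?_) hle
    rw [Multiset.map_add, hA'map, Multiset.map_map]
    congr 1
    have h8 : A.map (fun z => (q : E) ^ w / z) = (A'.map i1).map (fun z => (q : E) ^ w / z) := by
      rw [hA'map]
    rw [h8, Multiset.map_map]
    refine Multiset.map_congr rfl fun x _ => ?_
    rw [Function.comp_apply, Function.comp_apply, map_div₀, map_pow, map_natCast]
  have hprodL : A'.prod ^ M = (q : L) ^ (a * M) := by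
    apply i1.injective
    rw [map_pow, map_multiset_prod, hA'map, map_zpow₀, map_natCast, ← hd', ← map_pow, hdet,
      map_zpow₀, map_natCast]
  have hleC : A'.map i2 + (A'.map i2).map (fun z => (q : ℂ) ^ w / z) ≤
      (P.map (Int.castRingHom ℂ)).roots := by
    rw [hr2]
    refine le_trans (le_of_eq ?_) (Multiset.map_le_map hle')
    rw [Multiset.map_add]
    congr 1
    rw [Multiset.map_map, Multiset.map_map]
    refine Multiset.map_congr rfl fun x _ => ?_
    rw [Function.comp_apply, Function.comp_apply, map_div₀, map_pow, map_natCast]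
  refine ⟨A'.map i2, ?_, hleC, ?_, ?_⟩
  · rw [Multiset.card_map, hA'card]
  · rw [← map_multiset_prod, ← map_pow, hprodL, map_zpow₀, map_natCast]
  · have hcard : Multiset.card (A'.map i2) = finrank K R := by
      rw [Multiset.card_map, hA'card]
    have hz : ∀ z ∈ A'.map i2, ‖z‖ ^ 2 = (q : ℝ) ^ w := by
      intro z hz
      apply habs
      have h4 := Multiset.mem_of_le hleC (Multiset.mem_add.2 (Or.inl hz))
      have h5 := Polynomial.isRoot_of_mem_roots h4
      rw [Polynomial.IsRoot.def, Polynomial.eval_map] at h5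
      rw [Polynomial.aeval_def]
      exact h5
    have h4 : ∀ B : Multiset ℂ, (∀ z ∈ B, ‖z‖ ^ 2 = (q : ℝ) ^ w) →
        ‖B.prod‖ ^ 2 = (q : ℝ) ^ (w * Multiset.card B) := by
      intro B
      induction B using Multiset.induction_on with
      | empty => intro _; simp
      | cons z B ih =>
        intro h
        rw [Multiset.prod_cons, norm_mul, mul_pow, h z (Multiset.mem_cons_self _ _),
          ih fun y hy => h y (Multiset.mem_cons_of_mem hy), Multiset.card_cons, mul_add, mul_one,
          pow_add, mul_comm]
    rw [h4 _ hz, hcard]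

end Pool.Agent.TH30.SS
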